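import Pool.Agent.U829.JX.Main

set_option autoImplicit false

/-!
# `ζ(9)` and the numbers `ζ(9)^a π^b`: digits in algebraic bases and continued fractions

The numbers `ζ(9)^(a_i) π^(b_i)` with integer vectors `(a_i, b_i)` no two of which are proportional, for instance
`ζ(9)`, `ζ(9) / π^9`, `ζ(9) π`, ..., are jointly irregular (`JointlyIrregular`); the same is true for the numbers
`A_i(π) ζ(9) + B_i(π)` with integer polynomials such that `deg (A_j B_i - A_i B_j) > max (deg A_i, deg A_j)`.

An expansion of a real number `x` is a sequence of digits of `x` in one of finitely many algebraic bases (integers or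
not; any digits `|a_i| ≤ B`), or the sequence of its partial quotients. Its height is `n log β` or the logarithm of
the denominator of the convergent. Any two expansions of two different numbers of the family are apart: they cannot
both be cut into few pieces (a single term or `U V V ... V V'`) and cannot both be announced by automata with few
errors, at no scale; for every `θ < 1` there is `c > 0` such that at every large height `Z` at most one of the
numbers has an expansion which up to the height `Z` can be cut into `c log Z` pieces of size `Z^θ` or announced with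
`c log Z` errors by an automaton with `S` states, `S log (M + 3) ≤ Z^θ`. If one of the numbers is algebraic then all
expansions of every other one are irregular by themselves. The digits of a rational number in an integer base are one
piece, its partial quotients end; a real quadratic number has periodic partial quotients.

Proof. A piece gives an integer polynomial of bounded degree with a very small value at the number (a norm from
`ℚ(β)` for digits, the determinant of two pairs of convergents for partial quotients; `Pool.Agent.U829.AB`,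
`Pool.Agent.U829.CF`). Two of them, for two numbers of the family, contradict the joint measure of the starting
library (`Pool.Agent.R473.JC`, from the transcendence measure of `π`).
-/

namespace Pool.Agent.Results.MP_db0fbf_nt.AllExpansions

open Pool.Agent.U829.AB Pool.Agent.U829.JX
open Polynomial

/-- digits exist -/
theorem digits (F : Finset ℝ) (hF : ∀ β ∈ F, 1 < β ∧ IsAlgebraic ℤ β) (B T : ℕ) (β : ℝ) (hβ : β ∈ F)
    (hB : β < B + 1) (x : ℝ) (hx : |x| < β ^ T) :
    ∃ (a : ℕ → ℤ) (h : ℕ → ℝ), DigitCode {β} B T x a h ∧ Code F B T x a h := by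
  obtain ⟨a, h, hc⟩ := exists_code {β} B T β (Finset.mem_singleton_self β) (hF β hβ).1 hB x hx
  refine ⟨a, h, hc, Or.inl ?_⟩
  obtain ⟨γ, hγ, h1⟩ := hc
  rw [Finset.mem_singleton] at hγ
  subst hγ
  exact ⟨_, hβ, h1⟩

/-- `ζ(9) = ∑ 1 / n^9` -/
noncomputable def zeta9 : ℝ := ∑' n : ℕ, 1 / ((n : ℝ) + 1) ^ 9

theorem zeta9_pos : 0 < zeta9 := by
  unfold zeta9
  have hs : Summable fun n : ℕ => 1 / ((n : ℝ) + 1) ^ 9 := by
    have h := (summable_nat_add_iff 1).2 (Real.summable_one_div_nat_pow.2 (by norm_num : 1 < 9))
    refine h.congr fun n => ?_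
    push_cast
    rfl
  have h0 : ∀ n : ℕ, 0 ≤ 1 / ((n : ℝ) + 1) ^ 9 := fun n => by positivity
  have h1 := hs.le_tsum 0 fun n _ => h0 n
  refine lt_of_lt_of_le ?_ h1
  norm_num

/-- **Theorem.** Let `F` be a finite set of real algebraic numbers `β > 1` and `B`, `T` natural numbers.

(1) The numbers `ζ(9)^(a i) π^(b i)` with integers `a i`, `b i` are jointly irregular if the vectors `(a i, b i)`
are pairwise linearly independent. For instance `ζ(9) / π^9` and `ζ(9)` are jointly irregular.

(2) The numbers `A_i(π) ζ(9) + B_i(π)`, `A_i`, `B_i` integer polynomials, are jointly irregular if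
`deg (A_j B_i - A_i B_j) > max (deg A_i, deg A_j)` for `i ≠ j`; for instance the numbers `ζ(9) + m π`, `m` in a
finite set of integers.

(3) Digits exist: if `β ∈ F`, `β < B + 1` and `|x| < β^T` then `x` has such a sequence of digits in base `β`. -/
theorem result (F : Finset ℝ) (hF : ∀ β ∈ F, 1 < β ∧ IsAlgebraic ℤ β) (B T : ℕ) :
    (∀ (k : ℕ) (a b : Fin k → ℤ), (∀ i j, i ≠ j → a i * b j - b i * a j ≠ 0) →
      JointlyIrregular F B T fun i => zeta9 ^ a i * Real.pi ^ b i) ∧
    (zeta9 ≠ 0 ∧ JointlyIrregular F B T ![zeta9 / Real.pi ^ 9, zeta9]) ∧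
    (∀ (k : ℕ) (P Q : Fin k → ℤ[X]), (∀ i j, i ≠ j →
        max (P i).natDegree (P j).natDegree < (P j * Q i - P i * Q j).natDegree) →
      JointlyIrregular F B T fun i => aeval Real.pi (P i) * zeta9 + aeval Real.pi (Q i)) ∧
    (∀ β ∈ F, β < B + 1 → ∀ x : ℝ, |x| < β ^ T → ∃ (a : ℕ → ℤ) (h : ℕ → ℝ), DigitCode {β} B T x a h ∧ Code F B T x a h) := by
  have h3 : ∀ (k : ℕ) (a b : Fin k → ℤ), (∀ i j, i ≠ j → a i * b j - b i * a j ≠ 0) →
      JointlyIrregular F B T fun i => zeta9 ^ a i * Real.pi ^ b i := by
    intro k a b h
    exact jointlyIrregular F hF B T _ fun i j hij => Pool.Agent.U455.JA.joint_mono Real.pi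
      Pool.Agent.TH456.TM.measT_pi _ zeta9_pos.ne' (a i) (b i) (a j) (b j) (h i j hij)
  refine ⟨h3, ⟨zeta9_pos.ne', ?_⟩, fun k P Q h => ?_, fun β hβ hB x hx => digits F hF B T β hβ hB x hx⟩
  · have h := h3 2 ![1, 1] ![-9, 0] (by decide)
    have e : (fun i => zeta9 ^ (![1, 1] : Fin 2 → ℤ) i * Real.pi ^ (![-9, 0] : Fin 2 → ℤ) i) =
        ![zeta9 / Real.pi ^ 9, zeta9] := by
      funext i
      fin_cases i
      · show zeta9 ^ (1 : ℤ) * Real.pi ^ (-9 : ℤ) = zeta9 / Real.pi ^ 9
        rw [zpow_one, div_eq_mul_inv]; congr 1
      · show zeta9 ^ (1 : ℤ) * Real.pi ^ (0 : ℤ) = zeta9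
        rw [zpow_one, zpow_zero, mul_one]
    rwa [e] at h
  · exact jointlyIrregular F hF B T _ fun i j hij => Pool.Agent.U455.JA.joint_aff Real.pi
      Pool.Agent.TH456.TM.measT_pi _ (P i) (Q i) (P j) (Q j) (h i j hij)

end Pool.Agent.Results.MP_db0fbf_nt.AllExpansions
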