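import Mathlib
import Pool.Agent.U831.HY.Main
import Pool.Agent.U795.ZM.Meas

/-!
# The multiples of linear forms in `ζ(7), ζ(9), ζ(11), ζ(13)` modulo one, outside one hyperplane

Let `0 < κ`, `0 ≤ η`, `M ≥ 1` and `10732 M (κ + η) < 1`. For every large `X` there is ONE hyperplane
of `ℚ^4` such that at all scales `N` between `X` and `X ^ M` and for all integer forms
`θ = l_0 ζ(7) + l_1 ζ(9) + l_2 ζ(11) + l_3 ζ(13)` with `|l_i| ≤ N ^ η` and `l` outside the hyperplane,
the sequence `n θ + γ`, `n < N`, is equidistributed modulo one with an error at most `N ^ (1 - κ)` in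
all intervals, for all real `γ`. In particular this holds for one of the four numbers themselves, and
for one member of every family of four linearly independent forms.

The proof: a form with a larger error is close to a fraction with a denominator at most
`20 N ^ κ` (the discrepancy of `n θ` for an arbitrary real `θ`, `Pool.Agent.U831.JE.Disc`); four
linearly independent such forms would give (Cramer's rule, `Pool.Agent.U831.HY`) simultaneous
approximations of the four numbers which contradict the measure of `MP_db0fbf_nt.MeasureZeta7To13`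
(helper795, exponent `2683`).
-/

set_option autoImplicit false

namespace Pool.Agent.Results.MP_db0fbf_nt.HyperplaneOfForms

open Finset

/-- the numbers `ζ(7), ζ(9), ζ(11), ζ(13)`, for `i = 0, 1, 2, 3` -/
noncomputable def number (i : Fin 4) : ℝ := ∑' n : ℕ, 1 / ((n : ℝ) + 1) ^ (2 * (i : ℕ) + 7)

/-- the number of `n < N` with the fractional part of `n θ + γ` in `[u, v)` -/
noncomputable def count (θ γ u v : ℝ) (N : ℕ) : ℕ :=
  ((range N).filter fun n : ℕ => u ≤ Int.fract (n * θ + γ) ∧ Int.fract (n * θ + γ) < v).card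

/-- At all scales between `X` and `X ^ M` all integer forms in `ζ(7), …, ζ(13)` outside one
hyperplane are equidistributed with a power saving. -/
theorem result : (∀ i : Fin 4, ((number i : ℝ) : ℂ) = riemannZeta ((2 * (i : ℕ) + 7 : ℕ) : ℂ)) ∧
    ∀ κ η M : ℝ, 0 < κ → 0 ≤ η → 1 ≤ M → 10732 * M * (κ + η) < 1 →
      ∃ X₀ : ℝ, ∀ X : ℝ, X₀ ≤ X → ∃ w : Fin 4 → ℚ, w ≠ 0 ∧
        ∀ N : ℕ, X ≤ N → (N : ℝ) ≤ X ^ M → ∀ l : Fin 4 → ℤ, (∀ i, |(l i : ℝ)| ≤ (N : ℝ) ^ η) →
          ∑ i, w i * l i ≠ 0 → ∀ γ u v : ℝ, 0 ≤ u → u ≤ v → v ≤ 1 →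
            |(count (∑ i, (l i : ℝ) * number i) γ u v N : ℝ) - (v - u) * N| ≤
              (N : ℝ) ^ (1 - κ) := by
  refine ⟨fun i => ?_, fun κ η M hκ hη hM h => ?_⟩
  · rw [zeta_eq_tsum_one_div_nat_add_one_cpow (by simp; linarith), number, Complex.ofReal_tsum]
    refine tsum_congr fun n => ?_
    rw [Complex.cpow_natCast]
    push_cast
    rfl
  · obtain ⟨c, hc, hm⟩ := Pool.Agent.U795.ZM.measure
    have hk : κ < 1 / 2 := by
      have : 0 ≤ M * η := by positivity
      nlinarith
    obtain ⟨X₀, hX₀⟩ := Pool.Agent.U831.HY.hyper number 2683 (by norm_num) c hc (fun a q hq => by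
      obtain ⟨j, hj, hv⟩ := hm (fun j => if hj : (j - 7) / 2 < 4 then a ⟨(j - 7) / 2, hj⟩ else 0) q hq
      have key : ∀ i : Fin 4, j = 2 * (i : ℕ) + 7 → ∃ i, c / (q : ℝ) ^ 2683 ≤ |number i - a i / q| := by
        intro i hij
        refine ⟨i, ?_⟩
        subst hij
        have h1 : (2 * (i : ℕ) + 7 - 7) / 2 = i := by omega
        have h2 : (2 * (i : ℕ) + 7 - 7) / 2 < 4 := by omega
        rw [dif_pos h2] at hv
        have h3 : (⟨(2 * (i : ℕ) + 7 - 7) / 2, h2⟩ : Fin 4) = i := Fin.ext h1
        rw [h3] at hv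
        exact hv
      fin_cases hj
      · exact key 0 rfl
      · exact key 1 rfl
      · exact key 2 rfl
      · exact key 3 rfl) κ η M hκ hη hk hM (by
        have : ((2683 : ℕ) : ℝ) * ((4 : ℕ) : ℝ) * M * (κ + η) = 10732 * M * (κ + η) := by
          norm_num
        rw [this]
        exact h)
    refine ⟨max X₀ 1, fun X hX => ?_⟩
    obtain ⟨w, hw, hN⟩ := hX₀ X ((le_max_left _ _).trans hX)
    refine ⟨w, hw, fun N h1 h2 l hl hwl γ u v hu huv hv => ?_⟩
    have h3 := hN N h1 h2 l hl hwl γ u v hu huv hv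
    have hN0 : (0 : ℝ) < N := by
      have := (le_max_right X₀ 1).trans hX
      linarith
    have h4 : (N : ℝ) ^ (-κ) * N = (N : ℝ) ^ (1 - κ) := by
      rw [sub_eq_add_neg, add_comm, Real.rpow_add hN0, Real.rpow_one]
    rw [h4] at h3
    exact h3

end Pool.Agent.Results.MP_db0fbf_nt.HyperplaneOfForms
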