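import Pool.Agent.U795.ZM.Meas

/-!
# A simultaneous measure for the four numbers `ζ(7), ζ(9), ζ(11), ζ(13)`

Rational numbers with a common denominator `q` cannot approximate all the four numbers with an error below
`c q^(-2683)`. This is the quantitative form of `MP_c2395a_nt/OddZeta7To13` (one of the four numbers is irrational).

The Hankel determinants of `Pool/Agent/U795/Z7/` (size `25 (n - 1)`, fourth derivatives of a very well poised rational
function with poles of order ten and zeros of order five) are applied to the rational numbers `a j / q` themselves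
(`Pool/Agent/U795/ZM/`, after the starting files `Pool/Agent/TH900/XM` for `ζ(11), …, ζ(27)`):

* the functional `N(Q)` with `ζ(j)` replaced by `a j / q` differs from the series by `∑ ρ_i (ζ(i+4) - u_i)`, and
  `|ρ_i|` is at most `e^(643.4 n)` times the bound of the integrand on the slanted contours;
* the determinant does not vanish if the prime `n` satisfies `n^7 ∤ q`; such a prime exists between
  `3.0258 log q` and `4.1686 log q` by the prime number theorem in the class `1` modulo `24`;
* the `p`-adic bounds hold for arbitrary rational numbers with common denominator `q`, and the archimedean and `p`-adic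
  parts leave `-8.353 n²`, which pays for the factor `q^(25 (n - 1))`.
-/

namespace Pool.Agent.Results.MP_db0fbf_nt.MeasureZeta7To13

/-- There is `c > 0` such that for all integers `a j` and `q ≥ 1` there is `j ∈ {7, 9, 11, 13}` with
`|ζ(j) - a j / q| ≥ c q^(-2683)`, where `ζ(j) = ∑ 1/(n+1)^j`. -/
theorem result : ∃ c : ℝ, 0 < c ∧ ∀ (a : ℕ → ℤ) (q : ℕ), 0 < q → ∃ j ∈ ({7, 9, 11, 13} : Finset ℕ),
    c / (q : ℝ) ^ 2683 ≤ |(∑' n : ℕ, 1 / ((n : ℝ) + 1) ^ j) - (a j : ℝ) / q| :=
  Pool.Agent.U795.ZM.measure

end Pool.Agent.Results.MP_db0fbf_nt.MeasureZeta7To13
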