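import Pool.Agent.U456.IZ.Gen
import Pool.Agent.U456.IZ.Base
import Pool.Agent.U456.IZ.Bot

/-!
# Tails of the integral for `ζ(n)`, `n` odd, over the field of the tails for other indices

For an integer `k ≥ 2`, `ω = exp(2πi/k)` and `x ≥ 0` let
`R_k(x) = (-1)^k / k! ∫ (∑_j ω^j log t_j)^k exp(-∑_j t_j) dt`, the integral being over the points of the
octant `(0, ∞)^k` with `max t_j ≥ x`. This number is real and `R_k(0) = ζ(k)`, the integral over the
octant.

Call a field `F` of real numbers simultaneously Liouville if for any finitely many elements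
`x_1, …, x_m` of `F` and any `w` there are arbitrarily large `q` with `‖q x_i‖ < q ^ (-w)` for all
`i`. The field `ℚ` is one, and there are uncountable ones, see the statement.

Let `F` be such a field, let `n ≥ 3` be odd and let `O` be a finite set of natural numbers which does not
contain `n`. Let `E_O` be the field generated over `F` by `e` and by all the numbers `R_j(y)` with `y ≥ 0`
rational and `j ≥ 2` even or in `O`. It is proved that there are at most `|O| + 2` rational numbers `x ≥ 0` for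
which `R_n(x)` is algebraic over `E_O`.

For `n = 9` and `O = {3, 5, 7}` the field `E_O` contains `e`, `π^2`, `ζ(3)`, `ζ(5)`, `ζ(7)` and all the numbers
`R_j(y)`, `j` even or `j ≤ 7`, and `R_9(x)` is transcendental over it for all rational numbers `x ≥ 0` with
at most five exceptions; `R_9(0) = ζ(9)`.

The proof uses the formula of `Pool.Agent.R352.Q` for `ζ(k) - R_k(x)` as a polynomial in values of
E-functions, the measure of algebraic independence for these values
(`Pool.Agent.N743.SS.measM_EE`, a quantitative form of Shidlovskii's theorem), the file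
`Pool/Agent/U456/IZ/Liou.lean` (a polynomial measure of algebraic independence gives algebraic
independence over every simultaneously Liouville field), the matroid of algebraic independence
over `F` and Euler's theorem on `ζ(2n)`.
-/

set_option autoImplicit false

namespace Pool.Agent.Results.MP_db0fbf_nt.OverOtherTails

open Filter Topology MeasureTheory Pool.Agent.Q163.LE

/-- `(∑_j ω^j log t_j)^k exp(-∑_j t_j)`, `ω = exp(2πi/k)` -/
noncomputable def integrand (k : ℕ) (t : Fin k → ℝ) : ℂ :=
  (∑ j : Fin k, Complex.exp (2 * Real.pi * Complex.I / k) ^ (j : ℕ) * (Real.log (t j) : ℂ)) ^ k *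
    ((Real.exp (-∑ j, t j) : ℝ) : ℂ)

/-- the points of the octant with a coordinate at least `x` -/
def rest (k : ℕ) (x : ℝ) : Set (Fin k → ℝ) := {t | (∀ j, 0 < t j) ∧ ∃ j, x ≤ t j}

/-- `R_k(x)`, as a complex number -/
noncomputable def tail (k : ℕ) (x : ℝ) : ℂ :=
  (-1) ^ k / k.factorial * ∫ t in rest k x, integrand k t

/-- `R_k(x)`, as a real number -/
noncomputable def R (k : ℕ) (x : ℝ) : ℝ := (tail k x).re

/-- the field generated by all real numbers `x` such that, for some base `b`,
`phrases b x N / log N` tends to `0` as `N` tends to infinity in `S` -/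
noncomputable def field (S : Set ℕ) : Subfield ℝ := Subfield.closure {x : ℝ | ∃ b : ℕ, 2 ≤ b ∧
  Tendsto (fun N : ℕ => (phrases b x N : ℝ) / Real.log N) (atTop ⊓ 𝓟 S) (𝓝 0)}

/-- the numbers `R_j(y)` with `y ≥ 0` rational and `j ≥ 2` even or in `O` -/
def tails (O : Finset ℕ) : Set ℝ :=
  {w | ∃ j : ℕ, (Even j ∨ j ∈ O) ∧ 2 ≤ j ∧ ∃ y : ℚ, 0 ≤ y ∧ w = R j y}

/-- `z` is algebraic over the field `E_O` generated over `F` by `e` and the numbers `tails O`,
equivalently over the ring generated by them -/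
def AlgebraicOverTails (F : Subfield ℝ) (O : Finset ℕ) (z : ℝ) : Prop :=
  IsAlgebraic (Algebra.adjoin F (insert (Real.exp 1) (tails O))) z

/-- **`R_n(x)` is algebraic over `E_O` for at most `|O| + 2` rationals `x ≥ 0`.** -/
theorem result :
    -- examples of simultaneously Liouville fields, `⊥` is the field of rational numbers
    SimLiouville (⊥ : Subfield ℝ) ∧
    (∀ (T : ℕ → ℝ) (hT : Tendsto T atTop atTop), SimLiouville (ApField T hT)) ∧
    (∀ S : Set ℕ, S.Infinite → SimLiouville (field S)) ∧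
    -- the numbers `R_k(x)`
    (∀ k : ℕ, 2 ≤ k → (∀ x : ℝ, 0 ≤ x → tail k x = (R k x : ℂ)) ∧
      R k 0 = ∑' n : ℕ, 1 / ((n : ℝ) + 1) ^ k) ∧
    -- at most `|O| + 2` exceptions
    ∀ F : Subfield ℝ, SimLiouville F → ∀ (n : ℕ) (O : Finset ℕ), 3 ≤ n → Odd n → n ∉ O →
      {x : ℚ | 0 ≤ x ∧ AlgebraicOverTails F O (R n x)}.encard ≤ (O.card + 2 : ℕ) := by
  have hR : ∀ k : ℕ, 2 ≤ k → ∀ x : ℚ, 0 ≤ x → R k (x : ℝ) = Pool.Agent.U456.IZ.Tl k x := by
    intro k hk x hx
    rcases hx.eq_or_lt with h0 | h0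
    · rw [← h0, Rat.cast_zero, Pool.Agent.U456.IZ.Tl, if_pos rfl]
      exact Pool.Agent.U456.IZ.Rg_zero hk
    · rw [Pool.Agent.U456.IZ.Tl, if_neg h0.ne']
      exact Pool.Agent.U456.IZ.Rg_pos hk (by exact_mod_cast h0)
  have hE : ∀ O : Finset ℕ, tails O = Pool.Agent.U456.IZ.baseT O := by
    intro O
    ext w
    constructor
    · rintro ⟨j, hj, hj2, y, hy, h⟩
      exact ⟨j, hj, hj2, y, hy, by rw [h, hR j hj2 y hy]⟩
    · rintro ⟨j, hj, hj2, y, hy, h⟩
      exact ⟨j, hj, hj2, y, hy, by rw [h, hR j hj2 y hy]⟩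
  refine ⟨Pool.Agent.U456.IZ.sim_bot, sim_apField, sim_lz,
    fun k hk => ⟨fun x hx => Pool.Agent.U456.IZ.tailk_real hk hx,
    Pool.Agent.U456.IZ.Rg_zero hk⟩, fun F hF n O hn hodd hnO => ?_⟩
  have h1 : {x : ℚ | 0 ≤ x ∧ AlgebraicOverTails F O (R n x)} = {x : ℚ | 0 ≤ x ∧
      Pool.Agent.U456.IZ.Tl n x ∈ (Pool.Agent.U456.IZ.MF F).closure
        (insert (Real.exp 1) (Pool.Agent.U456.IZ.baseT O))} := by
    ext x
    simp only [Set.mem_setOf_eq]
    refine and_congr_right fun hx => ?_
    rw [AlgebraicOverTails, hE, hR n (by omega) x hx, Pool.Agent.U456.IZ.mem_clE]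
  rw [h1]
  exact Pool.Agent.U456.IZ.base_law_one hF O hn hodd hnO

end Pool.Agent.Results.MP_db0fbf_nt.OverOtherTails
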